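import Mathlib

namespace Pool.Agent.Results.MP_ecc06a_al.NoEvenOption

open Equiv

/-! ### Structure classes of the achievement game -/

section Defs

variable {G : Type} [Group G]

/-- The intersection of the maximal subgroups containing `P` (it is `G` if there is none). -/
def ceil (P : Set G) : Subgroup G := sInf {M : Subgroup G | IsCoatom M ∧ P ⊆ (M : Set G)}

/-- The deficiency: the least size of a set `Q` with `⟨S ∪ Q⟩ = G`. -/
noncomputable def deficiency (S : Set G) : ℕ :=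
  sInf {n | ∃ Q : Set G, Q.Finite ∧ Q.ncard = n ∧ Subgroup.closure (S ∪ Q) = ⊤}

/-- `X_I` is a structure class. -/
def IsClass (I : Subgroup G) : Prop := ∃ P : Set G, ceil P = I

/-- The structure class `X_J` is an option of the structure class `X_I`: for some nonterminal
position `P` of `X_I` and some unselected element `g`, the position `P ∪ {g}` is in `X_J`. -/
def IsOption (I J : Subgroup G) : Prop :=
  ∃ (P : Set G) (g : G), Subgroup.closure P ≠ ⊤ ∧ ceil P = I ∧ g ∉ P ∧ ceil (insert g P) = J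

theorem ceil_le {P : Set G} {M : Subgroup G} (hM : IsCoatom M) (h : P ⊆ (M : Set G)) :
    ceil P ≤ M := sInf_le ⟨hM, h⟩

theorem subset_ceil (P : Set G) : P ⊆ (ceil P : Set G) := by
  intro x hx
  rw [SetLike.mem_coe, ceil, Subgroup.mem_sInf]
  rintro M ⟨-, hM⟩
  exact hM hx

theorem abstract [Finite G] (V : Subgroup G)
    (ha : ∀ g, g ∉ V → ∃ M : Subgroup G, IsCoatom M ∧ g ∈ M ∧ Odd (Nat.card M))
    (hb : ∀ h, Subgroup.closure ((V : Set G) ∪ {h}) ≠ ⊤)
    (hc : ∃ a b : G, Subgroup.closure {a, b} = ⊤) :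
    Odd (Nat.card (ceil (∅ : Set G))) ∧ deficiency (ceil (∅ : Set G) : Set G) = 2 ∧
      ∀ L, IsOption (ceil (∅ : Set G)) L → deficiency (L : Set G) = 1 →
        Odd (Nat.card L) := by
  have odd_of_le : ∀ {A B : Subgroup G}, A ≤ B → Odd (Nat.card B) → Odd (Nat.card A) := by
    intro A B hAB hB
    exact hB.of_dvd_nat (Subgroup.card_dvd_of_le hAB)
  -- every element lies in a maximal subgroup
  have hcov : ∀ h : G, ∃ N : Subgroup G, IsCoatom N ∧ V ≤ N ∧ h ∈ N := by
    intro h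
    obtain h1 | ⟨N, hN, hle⟩ := eq_top_or_exists_le_coatom
      (Subgroup.closure ((V : Set G) ∪ {h}))
    · exact absurd h1 (hb h)
    · refine ⟨N, hN, ?_, ?_⟩
      · intro x hx
        exact hle (Subgroup.subset_closure (Or.inl hx))
      · exact hle (Subgroup.subset_closure (Or.inr rfl))
  have hVtop : V ≠ ⊤ := by
    intro hV
    obtain ⟨N, hN, hVN, -⟩ := hcov 1
    rw [hV] at hVN
    exact hN.1 (top_le_iff.mp hVN)
  obtain ⟨g0, hg0⟩ : ∃ g, g ∉ V := by
    by_contra hcon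
    push Not at hcon
    exact hVtop (Subgroup.eq_top_iff' V |>.mpr hcon)
  refine ⟨?_, ?_, ?_⟩
  · obtain ⟨M, hM, -, hodd⟩ := ha g0 hg0
    exact odd_of_le (ceil_le hM (Set.empty_subset _)) hodd
  · obtain ⟨a, b, hab⟩ := hc
    have hne : a ≠ b := by
      rintro rfl
      apply hb a
      rw [eq_top_iff, ← hab]
      apply Subgroup.closure_mono
      intro x hx
      right
      simpa using hx
    apply le_antisymm
    · apply Nat.sInf_le
      refine ⟨{a, b}, Set.toFinite _, Set.ncard_pair hne, ?_⟩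
      rw [eq_top_iff, ← hab]
      exact Subgroup.closure_mono Set.subset_union_right
    · apply le_csInf
      · refine ⟨2, {a, b}, Set.toFinite _, Set.ncard_pair hne, ?_⟩
        rw [eq_top_iff, ← hab]
        exact Subgroup.closure_mono Set.subset_union_right
      · rintro n ⟨Q, hQf, rfl, hQ⟩
        by_contra hlt
        push Not at hlt
        have hle : Q.ncard ≤ 1 := by omega
        obtain ⟨g, hg⟩ : ∃ g : G, Q ⊆ {g} := by
          rcases Q.eq_empty_or_nonempty with hQe | ⟨g, hg⟩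
          · exact ⟨1, by rw [hQe]; exact Set.empty_subset _⟩
          · refine ⟨g, fun x hx => ?_⟩
            exact (Set.ncard_le_one hQf).mp hle x hx g hg
        obtain ⟨N, hN, -, hgN⟩ := hcov g
        apply hN.1
        rw [eq_top_iff, ← hQ, Subgroup.closure_le]
        rintro x (hx | hx)
        · exact ceil_le hN (Set.empty_subset _) hx
        · have : x = g := hg hx
          rw [this]
          exact hgN
  · rintro L ⟨P, g, -, hP, -, rfl⟩ hdef
    have hPM : ∀ {M : Subgroup G}, IsCoatom M → P ⊆ (M : Set G) := by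
      intro M hM x hx
      have h1 : x ∈ ceil P := subset_ceil P hx
      rw [hP] at h1
      exact ceil_le hM (Set.empty_subset _) h1
    by_cases hg : g ∈ V
    · exfalso
      have hne : {n | ∃ Q : Set G, Q.Finite ∧ Q.ncard = n ∧
          Subgroup.closure ((ceil (insert g P) : Set G) ∪ Q) = ⊤}.Nonempty := by
        by_contra hcon
        rw [Set.not_nonempty_iff_eq_empty] at hcon
        rw [deficiency, hcon, Nat.sInf_empty] at hdef
        exact absurd hdef (by norm_num)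
      obtain ⟨Q, -, hQ1, hQ⟩ := Nat.sInf_mem hne
      change Q.ncard = deficiency _ at hQ1
      rw [hdef] at hQ1
      obtain ⟨h, rfl⟩ := Set.ncard_eq_one.mp hQ1
      obtain ⟨N, hN, hVN, hhN⟩ := hcov h
      apply hN.1
      rw [eq_top_iff, ← hQ, Subgroup.closure_le]
      rintro x (hx | hx)
      · refine ceil_le hN ?_ hx
        intro y hy
        rcases hy with rfl | hy
        · exact hVN hg
        · exact hPM hN hy
      · have : x = h := hx
        rw [this]
        exact hhN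
    · obtain ⟨M, hM, hgM, hodd⟩ := ha g hg
      refine odd_of_le (ceil_le hM ?_) hodd
      intro y hy
      rcases hy with rfl | hy
      · exact hgM
      · exact hPM hM hy

end Defs

/-! ### The sharply two-transitive group of degree 64 -/

section Field

variable {F : Type} [Field F] [Finite F] [CharP F 2]

omit [Finite F] in
theorem frob (a b : F) (k : ℕ) : (a + b) ^ (4 ^ k) = a ^ (4 ^ k) + b ^ (4 ^ k) := by
  have h4 : (4 : ℕ) ^ k = 2 ^ (2 * k) := by rw [pow_mul]; norm_num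
  rw [h4]
  exact add_pow_char_pow a b 2 (2 * k)

/-- `ζ` is a generator of the multiplicative group of a field with 64 elements. -/
structure Gen (ζ : F) : Prop where
  ord : orderOf ζ = 63
  gen : ∀ x : F, x ≠ 0 → ∃ n : ℕ, x = ζ ^ n

variable {ζ : F} (hζ : Gen ζ)

include hζ

omit [Finite F] [CharP F 2] in
theorem Gen.ne_zero : ζ ≠ 0 := by
  rintro rfl
  have := hζ.ord
  have h1 : (0 : F) ^ 63 = 1 := by rw [← this]; exact pow_orderOf_eq_one _
  simp at h1

omit [Finite F] [CharP F 2] in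
theorem Gen.pow_eq {a b : ℕ} : ζ ^ a = ζ ^ b ↔ a ≡ b [MOD 63] := by
  rw [← hζ.ord]
  exact pow_inj_mod_iff
where
  pow_inj_mod_iff {a b : ℕ} : ζ ^ a = ζ ^ b ↔ a ≡ b [MOD orderOf ζ] := by
    have h63 : IsUnit ζ := (hζ.ne_zero).isUnit
    obtain ⟨u, rfl⟩ := h63
    rw [orderOf_units, ← Units.val_pow_eq_pow_val, ← Units.val_pow_eq_pow_val, Units.val_inj]
    exact pow_eq_pow_iff_modEq

theorem Gen.pow64 (x : F) : x ^ 64 = x := by
  by_cases hx : x = 0
  · rw [hx]; simp
  · obtain ⟨n, rfl⟩ := hζ.gen x hx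
    rw [← pow_mul, hζ.pow_eq]
    have : n * 64 = n + 63 * n := by ring
    rw [this, Nat.ModEq]
    simp

theorem Gen.pow4 (x : F) (a t : ℕ) : x ^ (4 ^ (a + 3 * t)) = x ^ (4 ^ a) := by
  induction t with
  | zero => rfl
  | succ t ih =>
    have : 4 ^ (a + 3 * (t + 1)) = 4 ^ (a + 3 * t) * 64 := by
      rw [show a + 3 * (t + 1) = (a + 3 * t) + 3 by ring, pow_add]
      norm_num
    rw [this, pow_mul, hζ.pow64, ih]

omit hζ in
theorem four_pow_mod (k : ℕ) : ∃ t, 4 ^ k = 1 + 3 * t := by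
  induction k with
  | zero => exact ⟨0, rfl⟩
  | succ k ih =>
    obtain ⟨t, ht⟩ := ih
    exact ⟨1 + 4 * t, by rw [pow_succ, ht]; ring⟩

theorem Gen.pow4' (x : F) {a b : ℕ} (h : a ≡ b [MOD 3]) : x ^ (4 ^ a) = x ^ (4 ^ b) := by
  have ha : a = a % 3 + 3 * (a / 3) := (Nat.mod_add_div a 3).symm
  have hb : b = b % 3 + 3 * (b / 3) := (Nat.mod_add_div b 3).symm
  rw [ha, hb, hζ.pow4, hζ.pow4]
  have : a % 3 = b % 3 := h
  rw [this]

/-- the fundamental computation: a linear part fixing a nonzero element is trivial -/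
theorem Gen.fix {k : ℕ} {t : F} (ht : t ≠ 0) (h : ζ ^ k * t ^ (4 ^ k) = t) : ζ ^ k = 1 := by
  obtain ⟨s, rfl⟩ := hζ.gen t ht
  rw [← pow_mul, ← pow_add, hζ.pow_eq] at h
  obtain ⟨m, hm⟩ := four_pow_mod k
  -- k + s * 4^k ≡ s mod 63, hence mod 3
  have h3 : k ≡ 0 [MOD 3] := by
    have h' : k + s * 4 ^ k ≡ s [MOD 3] := h.of_dvd (by norm_num)
    rw [hm] at h'
    have : k + s * (1 + 3 * m) = (k + s) + 3 * (s * m) := by ring
    rw [this] at h'
    unfold Nat.ModEq at h' ⊢
    omega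
  have h4 : 4 ^ k ≡ 1 [MOD 63] := by
    obtain ⟨j, rfl⟩ : 3 ∣ k := (Nat.modEq_zero_iff_dvd).mp h3
    rw [pow_mul]
    have : (4 : ℕ) ^ 3 ≡ 1 [MOD 63] := by decide
    simpa using this.pow j
  have h5 : k + s * 4 ^ k ≡ k + s * 1 [MOD 63] := (h4.mul_left s).add_left k
  have h6 : k + s * 1 ≡ 0 + s [MOD 63] := by
    rw [zero_add]
    exact h5.symm.trans h
  rw [mul_one] at h6
  have h7 : k ≡ 0 [MOD 63] := Nat.ModEq.add_right_cancel' s h6
  have := hζ.pow_eq.mpr h7
  simpa using this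

theorem Gen.lin_trans {t t' : F} (ht : t ≠ 0) (ht' : t' ≠ 0) :
    ∃ k : ℕ, ζ ^ k * t ^ (4 ^ k) = t' := by
  obtain ⟨s, rfl⟩ := hζ.gen t ht
  obtain ⟨r, rfl⟩ := hζ.gen t' ht'
  set i := (r + 2 * s) % 3 with hi
  obtain ⟨m, hm⟩ := four_pow_mod i
  refine ⟨r + 62 * s * 4 ^ i, ?_⟩
  have hk : r + 62 * s * 4 ^ i ≡ i [MOD 3] := by
    rw [hm]
    have : r + 62 * s * (1 + 3 * m) = (r + 2 * s) + 3 * (20 * s + 62 * s * m) := by ring
    rw [this]
    unfold Nat.ModEq
    omega
  rw [hζ.pow4' (ζ ^ s) hk, ← pow_mul, ← pow_add, hζ.pow_eq]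
  have : r + 62 * s * 4 ^ i + s * 4 ^ i = r + 63 * (s * 4 ^ i) := by ring
  rw [this, Nat.ModEq]
  simp

theorem Gen.inj (k : ℕ) (v : F) : Function.Injective fun x : F => ζ ^ k * x ^ (4 ^ k) + v := by
  intro x y hxy
  have h1 : ζ ^ k * x ^ (4 ^ k) = ζ ^ k * y ^ (4 ^ k) := add_right_cancel hxy
  have h2 : x ^ (4 ^ k) = y ^ (4 ^ k) := mul_left_cancel₀ (pow_ne_zero k hζ.ne_zero) h1
  have h3 : (x + y) ^ (4 ^ k) = 0 := by
    rw [frob, h2]
    exact CharTwo.add_self_eq_zero _
  have h4 : x + y = 0 := pow_eq_zero_iff (pow_ne_zero k (by norm_num)) |>.mp h3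
  exact CharTwo.add_eq_zero.mp h4

/-- the map `x ↦ ζ^k x^(4^k) + v` as a permutation -/
noncomputable def pe (k : ℕ) (v : F) : Perm F :=
  Equiv.ofBijective (fun x : F => ζ ^ k * x ^ (4 ^ k) + v)
    (Finite.injective_iff_bijective.mp (hζ.inj k v))

theorem pe_apply (k : ℕ) (v x : F) : pe hζ k v x = ζ ^ k * x ^ (4 ^ k) + v := rfl

/-- composition -/
theorem comp (k j : ℕ) (v w x : F) :
    ζ ^ k * (ζ ^ j * x ^ (4 ^ j) + w) ^ (4 ^ k) + v =
      ζ ^ (k + j * 4 ^ k) * x ^ (4 ^ (k + j * 4 ^ k)) + (ζ ^ k * w ^ (4 ^ k) + v) := by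
  have h3 : k + j * 4 ^ k ≡ j + k [MOD 3] := by
    obtain ⟨m, hm⟩ := four_pow_mod k
    rw [hm]
    have : k + j * (1 + 3 * m) = (j + k) + 3 * (j * m) := by ring
    rw [this]
    unfold Nat.ModEq
    omega
  rw [hζ.pow4' x h3, frob, mul_pow, ← pow_mul, ← pow_mul, ← pow_add 4 j k, pow_add ζ]
  ring

/-- the submonoid of all maps `x ↦ ζ^k x^(4^k) + v` -/
def mon : Submonoid (Perm F) where
  carrier := {g | ∃ (k : ℕ) (v : F), ∀ x, g x = ζ ^ k * x ^ (4 ^ k) + v}
  one_mem' := ⟨0, 0, fun x => by simp⟩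
  mul_mem' := by
    rintro g h ⟨k, v, hg⟩ ⟨j, w, hh⟩
    refine ⟨k + j * 4 ^ k, ζ ^ k * w ^ (4 ^ k) + v, fun x => ?_⟩
    rw [Perm.mul_apply, hh, hg, comp hζ]

/-- the group of all maps `x ↦ ζ^k x^(4^k) + v` -/
def grp : Subgroup (Perm F) where
  toSubmonoid := mon hζ
  inv_mem' := by
    intro g hg
    have h1 : g⁻¹ = g ^ (orderOf g - 1) := by
      rw [eq_comm, eq_inv_iff_mul_eq_one, ← pow_succ, Nat.sub_add_cancel (orderOf_pos g)]
      exact pow_orderOf_eq_one g
    change g⁻¹ ∈ mon hζ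
    rw [h1]
    exact pow_mem hg _

theorem mem_grp {g : Perm F} :
    g ∈ grp hζ ↔ ∃ (k : ℕ) (v : F), ∀ x, g x = ζ ^ k * x ^ (4 ^ k) + v := Iff.rfl

/-- the elements of the group -/
noncomputable def e (k : ℕ) (v : F) : grp hζ := ⟨pe hζ k v, k, v, fun _ => rfl⟩

theorem e_apply (k : ℕ) (v x : F) : (e hζ k v : Perm F) x = ζ ^ k * x ^ (4 ^ k) + v := rfl

theorem exists_e (g : grp hζ) : ∃ k v, g = e hζ k v := by
  obtain ⟨g, k, v, hg⟩ := g
  refine ⟨k, v, ?_⟩
  apply Subtype.ext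
  apply Equiv.ext
  intro x
  exact hg x

theorem e_mul (k j : ℕ) (v w : F) :
    e hζ k v * e hζ j w = e hζ (k + j * 4 ^ k) (ζ ^ k * w ^ (4 ^ k) + v) := by
  apply Subtype.ext
  apply Equiv.ext
  intro x
  exact comp hζ k j v w x

theorem e_one : e hζ 0 0 = 1 := by
  apply Subtype.ext
  apply Equiv.ext
  intro x
  rw [e_apply]
  simp

theorem e_congr {k j : ℕ} (h : k ≡ j [MOD 63]) (v : F) : e hζ k v = e hζ j v := by
  apply Subtype.ext
  apply Equiv.ext
  intro x
  rw [e_apply, e_apply, hζ.pow_eq.mpr h, hζ.pow4' x (h.of_dvd (by norm_num))]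

/-- the additive part -/
theorem e_add (k : ℕ) (v a b : F) :
    (e hζ k v : Perm F) a + (e hζ k v : Perm F) b = ζ ^ k * (a + b) ^ (4 ^ k) := by
  rw [e_apply, e_apply, frob]
  have : v + v = 0 := CharTwo.add_self_eq_zero v
  linear_combination this

/-- the translations -/
def V : Subgroup (grp hζ) where
  carrier := {g | ∃ v : F, ∀ x, (g : Perm F) x = x + v}
  one_mem' := ⟨0, fun x => by simp⟩
  mul_mem' := by
    rintro g h ⟨v, hg⟩ ⟨w, hh⟩
    refine ⟨w + v, fun x => ?_⟩
    rw [Subgroup.coe_mul, Perm.mul_apply, hh, hg, add_assoc]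
  inv_mem' := by
    rintro g ⟨v, hg⟩
    refine ⟨v, fun x => ?_⟩
    rw [Subgroup.coe_inv, Perm.inv_eq_iff_eq, hg, add_assoc, CharTwo.add_self_eq_zero, add_zero]

theorem mem_V_of_one {k : ℕ} (h : ζ ^ k = 1) (v : F) : e hζ k v ∈ V hζ := by
  refine ⟨v, fun x => ?_⟩
  have hk : k ≡ 0 [MOD 63] := by
    rw [← hζ.pow_eq, h, pow_zero]
  rw [e_congr hζ hk, e_apply]
  simp

theorem one_of_mem_V {k : ℕ} {v : F} (h : e hζ k v ∈ V hζ) : ζ ^ k = 1 := by
  obtain ⟨w, hw⟩ := h
  have h1 := e_add hζ k v 1 0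
  rw [hw, hw] at h1
  simp only [add_zero, one_pow, mul_one, zero_add] at h1
  rw [← h1, add_assoc, CharTwo.add_self_eq_zero, add_zero]

/-- the stabilizer of a point -/
def St (u : F) : Subgroup (grp hζ) where
  carrier := {g | (g : Perm F) u = u}
  one_mem' := rfl
  mul_mem' := by
    intro g h hg hh
    change (g : Perm F) u = u at hg
    change (h : Perm F) u = u at hh
    change ((g * h : grp hζ) : Perm F) u = u
    rw [Subgroup.coe_mul, Perm.mul_apply, hh, hg]
  inv_mem' := by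
    intro g hg
    change (g : Perm F) u = u at hg
    change ((g⁻¹ : grp hζ) : Perm F) u = u
    rw [Subgroup.coe_inv, Perm.inv_eq_iff_eq, hg]

theorem mem_St {u : F} {g : grp hζ} : g ∈ St hζ u ↔ (g : Perm F) u = u := Iff.rfl

theorem St_coatom (u : F) : IsCoatom (St hζ u) := by
  constructor
  · intro htop
    have h1 : e hζ 0 1 ∈ St hζ u := by rw [htop]; exact Subgroup.mem_top _
    rw [mem_St, e_apply] at h1
    simp at h1
  · intro N hN
    obtain ⟨n, hnN, hn⟩ := SetLike.exists_of_lt hN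
    rw [mem_St] at hn
    rw [eq_top_iff]
    intro g _
    by_cases hg : (g : Perm F) u = u
    · exact hN.le hg
    · have ht : (n : Perm F) u + u ≠ 0 := fun h => hn (CharTwo.add_eq_zero.mp h)
      have ht' : (g : Perm F) u + u ≠ 0 := fun h => hg (CharTwo.add_eq_zero.mp h)
      obtain ⟨k, hk⟩ := hζ.lin_trans ht ht'
      set m : grp hζ := e hζ k (ζ ^ k * u ^ (4 ^ k) + u) with hm
      have hmu : (m : Perm F) u = u := by
        rw [hm, e_apply, ← add_assoc, CharTwo.add_self_eq_zero, zero_add]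
      have hmN : m ∈ N := hN.le hmu
      have hmn : (m : Perm F) ((n : Perm F) u) = (g : Perm F) u := by
        have h1 := e_add hζ k (ζ ^ k * u ^ (4 ^ k) + u) ((n : Perm F) u) u
        rw [hk] at h1
        rw [← hm] at h1
        rw [hmu] at h1
        exact add_right_cancel h1
      have h2 : (m * n)⁻¹ * g ∈ St hζ u := by
        rw [mem_St, Subgroup.coe_mul, Perm.mul_apply, Subgroup.coe_inv, Perm.inv_eq_iff_eq,
          Subgroup.coe_mul, Perm.mul_apply, hmn]
      have h3 : (m * n) * ((m * n)⁻¹ * g) ∈ N := N.mul_mem (N.mul_mem hmN hnN) (hN.le h2)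
      rwa [mul_inv_cancel_left] at h3

theorem St_odd (u : F) : Odd (Nat.card (St hζ u)) := by
  rw [← Nat.not_even_iff_odd, even_iff_two_dvd]
  intro h2
  obtain ⟨m, hm⟩ := exists_prime_orderOf_dvd_card' 2 h2
  have hm2 : m ^ 2 = 1 := by rw [← hm]; exact pow_orderOf_eq_one m
  have hm1 : m ≠ 1 := by
    rintro rfl
    rw [orderOf_one] at hm
    exact absurd hm (by norm_num)
  obtain ⟨k, v, hkv⟩ := exists_e hζ m.1
  have hmu : (e hζ k v : Perm F) u = u := by rw [← hkv]; exact m.2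
  have hinv : ∀ x, (e hζ k v : Perm F) ((e hζ k v : Perm F) x) = x := by
    intro x
    rw [← hkv, ← Perm.mul_apply, ← Subgroup.coe_mul, ← Subgroup.coe_mul, ← pow_two, hm2]
    rfl
  have hk : ζ ^ k = 1 := by
    set y := (e hζ k v : Perm F) (u + 1) with hy
    have hyy : (e hζ k v : Perm F) y = u + 1 := by rw [hy]; exact hinv _
    by_cases hyu : y = u + 1
    · have h1 := e_add hζ k v (u + 1) u
      rw [hmu, ← hy, hyu] at h1
      have h2 : u + 1 + u = 1 := by
        rw [add_right_comm, CharTwo.add_self_eq_zero, zero_add]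
      rw [h2] at h1
      exact hζ.fix one_ne_zero h1.symm
    · have h1 := e_add hζ k v (u + 1) y
      rw [← hy, hyy] at h1
      have h2 : y + (u + 1) ≠ 0 := fun h => hyu (CharTwo.add_eq_zero.mp h)
      rw [add_comm (u + 1) y] at h1
      exact hζ.fix h2 h1.symm
  apply hm1
  apply Subtype.ext
  rw [hkv]
  have hk0 : k ≡ 0 [MOD 63] := by
    rw [← hζ.pow_eq, hk, pow_zero]
  rw [e_congr hζ hk0] at hmu ⊢
  rw [e_apply] at hmu
  have hv : v = 0 := by simpa using hmu
  rw [hv, e_one]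
  rfl

theorem ha (g : grp hζ) (hg : g ∉ V hζ) :
    ∃ M : Subgroup (grp hζ), IsCoatom M ∧ g ∈ M ∧ Odd (Nat.card M) := by
  obtain ⟨k, v, rfl⟩ := exists_e hζ g
  have hk : ζ ^ k ≠ 1 := fun h => hg (mem_V_of_one hζ h v)
  have hinj : Function.Injective (fun x : F => x + ζ ^ k * x ^ (4 ^ k)) := by
    intro x y hxy
    change x + ζ ^ k * x ^ (4 ^ k) = y + ζ ^ k * y ^ (4 ^ k) at hxy
    by_contra hne
    have ht : x + y ≠ 0 := fun h => hne (CharTwo.add_eq_zero.mp h)
    apply hk
    apply hζ.fix ht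
    rw [frob, mul_add]
    rw [← CharTwo.add_eq_zero]
    have h2 : ∀ z : F, z + z = 0 := CharTwo.add_self_eq_zero
    linear_combination hxy + h2 y + h2 (ζ ^ k * y ^ (4 ^ k))
  obtain ⟨u, hu⟩ := (Finite.injective_iff_surjective.mp hinj) v
  change u + ζ ^ k * u ^ (4 ^ k) = v at hu
  refine ⟨St hζ u, St_coatom hζ u, ?_, St_odd hζ u⟩
  rw [mem_St, e_apply, ← hu]
  have h2 : ∀ z : F, z + z = 0 := CharTwo.add_self_eq_zero
  linear_combination h2 (ζ ^ k * u ^ (4 ^ k))

/-- the linear part -/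
def lin : grp hζ →* Perm F where
  toFun g :=
    { toFun := fun x => (g : Perm F) x + (g : Perm F) 0
      invFun := fun x => ((g⁻¹ : grp hζ) : Perm F) (x + (g : Perm F) 0)
      left_inv := by
        intro x
        change ((g⁻¹ : grp hζ) : Perm F) ((g : Perm F) x + (g : Perm F) 0 + (g : Perm F) 0) = x
        rw [add_assoc, CharTwo.add_self_eq_zero, add_zero, Subgroup.coe_inv, Perm.inv_eq_iff_eq]
      right_inv := by
        intro x
        change (g : Perm F) (((g⁻¹ : grp hζ) : Perm F) (x + (g : Perm F) 0)) + (g : Perm F) 0 = x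
        have h1 : (g : Perm F) (((g⁻¹ : grp hζ) : Perm F) (x + (g : Perm F) 0)) =
            x + (g : Perm F) 0 := by
          rw [← Perm.mul_apply, ← Subgroup.coe_mul, mul_inv_cancel]
          rfl
        rw [h1, add_assoc, CharTwo.add_self_eq_zero, add_zero] }
  map_one' := by
    apply Equiv.ext
    intro x
    change x + 0 = x
    rw [add_zero]
  map_mul' := by
    intro g h
    apply Equiv.ext
    intro x
    change (g : Perm F) ((h : Perm F) x) + (g : Perm F) ((h : Perm F) 0) =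
      (g : Perm F) ((h : Perm F) x + (h : Perm F) 0) + (g : Perm F) 0
    obtain ⟨k, v, rfl⟩ := exists_e hζ g
    rw [e_add, e_add, add_zero]

theorem lin_apply (g : grp hζ) (x : F) : lin hζ g x = (g : Perm F) x + (g : Perm F) 0 := rfl

theorem lin_V {g : grp hζ} (hg : g ∈ V hζ) : lin hζ g = 1 := by
  obtain ⟨v, hv⟩ := hg
  apply Equiv.ext
  intro x
  rw [lin_apply, hv, hv, zero_add, add_assoc, CharTwo.add_self_eq_zero, add_zero]
  rfl

theorem hb (h : grp hζ) : Subgroup.closure ((V hζ : Set (grp hζ)) ∪ {h}) ≠ ⊤ := by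
  intro htop
  have h1 : ∀ g : grp hζ, lin hζ g * lin hζ h = lin hζ h * lin hζ g := by
    intro g
    have hg : g ∈ Subgroup.closure ((V hζ : Set (grp hζ)) ∪ {h}) := by
      rw [htop]; exact Subgroup.mem_top _
    induction hg using Subgroup.closure_induction with
    | mem x hx =>
      rcases hx with hx | hx
      · rw [lin_V hζ hx, one_mul, mul_one]
      · have : x = h := hx
        rw [this]
    | one => rw [map_one, one_mul, mul_one]
    | mul x y _ _ hx hy => rw [map_mul, mul_assoc, hy, ← mul_assoc, hx, mul_assoc]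
    | inv x _ hx =>
      rw [map_inv]
      exact (Commute.inv_left (show Commute (lin hζ x) (lin hζ h) from hx))
  have h2 : ∀ g g' : grp hζ, lin hζ g * lin hζ g' = lin hζ g' * lin hζ g := by
    intro g g'
    have hg : g ∈ Subgroup.closure ((V hζ : Set (grp hζ)) ∪ {h}) := by
      rw [htop]; exact Subgroup.mem_top _
    induction hg using Subgroup.closure_induction with
    | mem x hx =>
      rcases hx with hx | hx
      · rw [lin_V hζ hx, one_mul, mul_one]
      · have : x = h := hx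
        rw [this]
        exact (h1 g').symm
    | one => rw [map_one, one_mul, mul_one]
    | mul x y _ _ hx hy => rw [map_mul, mul_assoc, hy, ← mul_assoc, hx, mul_assoc]
    | inv x _ hx =>
      rw [map_inv]
      exact (Commute.inv_left (show Commute (lin hζ x) (lin hζ g') from hx))
  have h3 := h2 (e hζ 3 0) (e hζ 1 0)
  rw [← map_mul, ← map_mul, e_mul, e_mul] at h3
  have h4 := Equiv.congr_fun h3 1
  rw [lin_apply, lin_apply, e_add, e_add] at h4
  simp only [add_zero, one_pow, mul_one] at h4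
  rw [hζ.pow_eq] at h4
  exact absurd h4 (by decide)

theorem hc : ∃ a b : grp hζ, Subgroup.closure {a, b} = ⊤ := by
  refine ⟨e hζ 3 0, e hζ 1 1, ?_⟩
  set H := Subgroup.closure {e hζ 3 0, e hζ 1 1} with hH
  have hs : e hζ 3 0 ∈ H := Subgroup.subset_closure (Or.inl rfl)
  have ht : e hζ 1 1 ∈ H := Subgroup.subset_closure (Or.inr rfl)
  -- every linear part occurs
  have step : ∀ (r n : ℕ), (∃ w, e hζ r w ∈ H) → ∃ w, e hζ (3 * n + r) w ∈ H := by
    intro r n
    induction n with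
    | zero => intro h; simpa using h
    | succ n ih =>
      intro h
      obtain ⟨w, hw⟩ := ih h
      have h1 := H.mul_mem hs hw
      rw [e_mul] at h1
      refine ⟨ζ ^ 3 * w ^ (4 ^ 3) + 0, ?_⟩
      · have h2 : 3 * (n + 1) + r ≡ 3 + (3 * n + r) * 4 ^ 3 [MOD 63] := by
          have : 3 + (3 * n + r) * 4 ^ 3 = (3 * (n + 1) + r) + 63 * (3 * n + r) := by ring
          rw [this]
          unfold Nat.ModEq
          omega
        rw [e_congr hζ h2]
        exact h1
  have hall : ∀ k, ∃ w, e hζ k w ∈ H := by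
    intro k
    have h0 : ∃ w, e hζ 0 w ∈ H := ⟨0, by rw [e_one]; exact H.one_mem⟩
    have h1 : ∃ w, e hζ 1 w ∈ H := ⟨1, ht⟩
    have h5 : ∃ w, e hζ 5 w ∈ H := ⟨ζ ^ 1 * 1 ^ (4 ^ 1) + 1, by
      have := H.mul_mem ht ht
      rw [e_mul] at this
      exact this⟩
    have hk3 : k % 3 = 0 ∨ k % 3 = 1 ∨ k % 3 = 2 := by omega
    rcases hk3 with hk | hk | hk
    · have : k = 3 * (k / 3) + 0 := by omega
      rw [this]; exact step 0 _ h0
    · have : k = 3 * (k / 3) + 1 := by omega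
      rw [this]; exact step 1 _ h1
    · obtain ⟨w, hw⟩ := step 5 (k / 3 + 20) h5
      refine ⟨w, ?_⟩
      have : k ≡ 3 * (k / 3 + 20) + 5 [MOD 63] := by
        unfold Nat.ModEq
        omega
      rw [e_congr hζ this]
      exact hw
  -- a nontrivial translation
  set c : F := 1 + ζ ^ 12 with hc
  have hc0 : c ≠ 0 := by
    intro h
    have h1 : (1 : F) = ζ ^ 12 := CharTwo.add_eq_zero.mp h
    rw [← pow_zero ζ, hζ.pow_eq] at h1
    exact absurd h1 (by decide)
  have htau : e hζ 0 c ∈ H := by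
    have h1 : e hζ 0 c * (e hζ 3 0 ^ 4 * e hζ 1 1) = e hζ 1 1 * e hζ 3 0 := by
      have h4 : e hζ 3 0 ^ 4 = e hζ 12 0 := by
        rw [show (4 : ℕ) = 2 * 2 by norm_num, pow_mul, pow_two, pow_two, e_mul, e_mul]
        simp only [mul_zero, add_zero, zero_pow (pow_ne_zero _ (by norm_num : (4:ℕ) ≠ 0))]
        exact e_congr hζ (by decide) 0
      rw [h4, e_mul, e_mul, e_mul]
      have h5 : ζ ^ 12 * (1 : F) ^ 4 ^ 12 + 0 = ζ ^ 12 := by simp
      have h6 : ζ ^ 1 * (0 : F) ^ 4 ^ 1 + 1 = 1 := by simp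
      rw [h5, h6]
      have h7 : ζ ^ 0 * (ζ ^ 12) ^ 4 ^ 0 + c = 1 := by
        rw [hc]
        have : ζ ^ 12 + ζ ^ 12 = 0 := CharTwo.add_self_eq_zero _
        simp only [pow_zero, pow_one, one_mul]
        linear_combination this
      rw [h7]
      exact e_congr hζ (by decide) 1
    have h2 : e hζ 0 c = (e hζ 1 1 * e hζ 3 0) * (e hζ 3 0 ^ 4 * e hζ 1 1)⁻¹ := by
      rw [← h1, mul_inv_cancel_right]
    rw [h2]
    exact H.mul_mem (H.mul_mem ht hs) (H.inv_mem (H.mul_mem (H.pow_mem hs 4) ht))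
  -- all translations
  have htr : ∀ v : F, e hζ 0 v ∈ H := by
    intro v
    by_cases hv : v = 0
    · rw [hv, e_one]; exact H.one_mem
    · obtain ⟨k, hk⟩ := hζ.lin_trans hc0 hv
      obtain ⟨w, hw⟩ := hall k
      have h1 : e hζ k w * e hζ 0 c = e hζ 0 v * e hζ k w := by
        rw [e_mul, e_mul, hk, zero_mul, add_zero, pow_zero, pow_zero, pow_one, one_mul, mul_one,
          zero_add, add_comm v w]
      have h2 : e hζ 0 v = e hζ k w * e hζ 0 c * (e hζ k w)⁻¹ := by
        rw [h1, mul_inv_cancel_right]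
      rw [h2]
      exact H.mul_mem (H.mul_mem hw htau) (H.inv_mem hw)
  rw [eq_top_iff]
  intro g _
  obtain ⟨k, v, rfl⟩ := exists_e hζ g
  obtain ⟨w, hw⟩ := hall k
  have h1 : e hζ 0 (v + w) * e hζ k w = e hζ k v := by
    rw [e_mul, pow_zero, pow_zero, pow_one, one_mul, mul_one, zero_add]
    congr 1
    rw [add_comm v w, ← add_assoc, CharTwo.add_self_eq_zero, zero_add]
  rw [← h1]
  exact H.mul_mem (htr _) hw

theorem card_even : Even (Nat.card (grp hζ)) := by
  have h1 : e hζ 0 1 ^ 2 = 1 := by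
    rw [pow_two, e_mul, ← e_one hζ]
    congr 1
    simp only [pow_zero, pow_one, one_mul]
    exact CharTwo.add_self_eq_zero _
  have h2 : e hζ 0 1 ≠ 1 := by
    intro h
    have h3 : (e hζ 0 1 : Perm F) 0 = 0 := by rw [h]; rfl
    rw [e_apply] at h3
    simp at h3
  have h3 : orderOf (e hζ 0 1) = 2 := orderOf_eq_prime h1 h2
  rw [even_iff_two_dvd, ← h3]
  exact orderOf_dvd_natCard _

end Field

theorem exists_gen : ∃ ζ : GaloisField 2 6, Gen ζ := by
  have hcard : Nat.card (GaloisField 2 6) = 64 := by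
    rw [GaloisField.card 2 6 (by norm_num)]
    norm_num
  have : Fintype (GaloisField 2 6) := Fintype.ofFinite _
  obtain ⟨u, hu⟩ := IsCyclic.exists_generator (α := (GaloisField 2 6)ˣ)
  refine ⟨(u : GaloisField 2 6), ?_, ?_⟩
  · rw [orderOf_units, orderOf_eq_card_of_forall_mem_zpowers hu, Nat.card_units, hcard]
  · intro x hx
    obtain ⟨n, hn⟩ := (mem_powers_iff_mem_zpowers.mpr (hu (Units.mk0 x hx)))
    refine ⟨n, ?_⟩
    have := congrArg Units.val hn
    simpa using this.symm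

/-- The negated form of Q1: there are a finite group `G` of even order, an integer `k ≥ 0` and a
structure class `X_I ∈ 𝒪_{k+1}` of `GEN(G)` none of whose options lies in `ℰ_k`. -/
theorem result : ∃ (G : Type) (_ : Group G) (_ : Finite G), Even (Nat.card G) ∧
    ∃ (k : ℕ) (I : Subgroup G), IsClass I ∧ Odd (Nat.card I) ∧
      deficiency (I : Set G) = k + 1 ∧
      ¬ ∃ L : Subgroup G, IsOption I L ∧ Even (Nat.card L) ∧ deficiency (L : Set G) = k := by
  obtain ⟨ζ, hζ⟩ := exists_gen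
  have h := abstract (V hζ) (ha hζ) (hb hζ) (hc hζ)
  refine ⟨grp hζ, inferInstance, inferInstance, card_even hζ, 1, ceil ∅, ⟨∅, rfl⟩, h.1, h.2.1,
    ?_⟩
  rintro ⟨L, hL, hLe, hLd⟩
  exact (Nat.not_even_iff_odd.mpr (h.2.2 L hL hLd)) hLe

end Pool.Agent.Results.MP_ecc06a_al.NoEvenOption
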